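import Pool.Agent.W2helper17.BL.Low

/-! The jointly completely bounded bilinear map. -/

set_option autoImplicit false

namespace Pool.Agent.W2helper17.BL

open Finset Complex
open scoped ComplexConjugate CStarMatrix BoundedContinuousFunction

/-- primes -/
noncomputable def Pr (j : ℕ) : ℕ := Classical.choose (Nat.exists_infinite_primes (256 ^ j + 5))

lemma Pr_ge (j : ℕ) : 256 ^ j + 5 ≤ Pr j :=
  (Classical.choose_spec (Nat.exists_infinite_primes (256 ^ j + 5))).1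

lemma Pr_prime (j : ℕ) : (Pr j).Prime :=
  (Classical.choose_spec (Nat.exists_infinite_primes (256 ^ j + 5))).2

instance (j : ℕ) : Fact (Pr j).Prime := ⟨Pr_prime j⟩

instance (j : ℕ) : NeZero (Pr j) := ⟨(Pr_prime j).ne_zero⟩

lemma Pr_three (j : ℕ) : (3 : ZMod (Pr j)) ≠ 0 := by
  intro h
  have h' : ((3 : ℕ) : ZMod (Pr j)) = 0 := by exact_mod_cast h
  rw [ZMod.natCast_eq_zero_iff] at h'
  have h1 := Nat.le_of_dvd (by norm_num) h'
  have h2 := Pr_ge j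
  have h3 : 0 ≤ 256 ^ j := Nat.zero_le _
  linarith

lemma Pr_two (j : ℕ) : (2 : ZMod (Pr j)) ≠ 0 := by
  intro h
  have h' : ((2 : ℕ) : ZMod (Pr j)) = 0 := by exact_mod_cast h
  rw [ZMod.natCast_eq_zero_iff] at h'
  have h1 := Nat.le_of_dvd (by norm_num) h'
  have h2 := Pr_ge j
  have h3 : 0 ≤ 256 ^ j := Nat.zero_le _
  linarith

lemma Pr_six (j : ℕ) : (6 : ZMod (Pr j)) ≠ 0 := by
  have : (6 : ZMod (Pr j)) = 2 * 3 := by norm_num
  rw [this]
  exact mul_ne_zero (Pr_two j) (Pr_three j)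

/-- the discrete space -/
abbrev Om : Type := Σ j : ℕ, ZMod (Pr j)

/-- the points of block `j` -/
def pt (j : ℕ) (x : ZMod (Pr j)) : Om := ⟨j, x⟩

/-- the characters on block `j` -/
noncomputable def gf (j : ℕ) (k : ZMod (Pr j)) (ω : Om) : ℂ :=
  if h : ω.1 = j then ee ((h ▸ ω.2) * k) else 0

lemma gf_same (j : ℕ) (k x : ZMod (Pr j)) : gf j k (pt j x) = ee (x * k) := by
  unfold gf pt
  simp

lemma gf_other (j : ℕ) (k : ZMod (Pr j)) (ω : Om) (h : ω.1 ≠ j) : gf j k ω = 0 := by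
  unfold gf
  rw [dif_neg h]

lemma gf_norm (j : ℕ) (k : ZMod (Pr j)) (ω : Om) : ‖gf j k ω‖ ≤ 1 := by
  unfold gf
  split_ifs with h
  · rw [ee_norm]
  · simp

/-- the characters as elements of the algebra -/
noncomputable def gg (j : ℕ) (k : ZMod (Pr j)) : Om →ᵇ ℂ :=
  BoundedContinuousFunction.ofNormedAddCommGroupDiscrete (gf j k) 1 (gf_norm j k)

lemma gg_coe (j : ℕ) (k : ZMod (Pr j)) : (gg j k : Om → ℂ) = gf j k := rfl

/-- weights -/
noncomputable def wt (j : ℕ) : ℝ := (1 / 2) ^ j / Real.sqrt (Real.sqrt (Pr j))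

lemma Pr_pos (j : ℕ) : (0 : ℝ) < Pr j := by exact_mod_cast (Pr_prime j).pos

lemma wt_pos (j : ℕ) : 0 < wt j := by
  have := Real.sqrt_pos.2 (Real.sqrt_pos.2 (Pr_pos j))
  unfold wt
  positivity

lemma wt_sq (j : ℕ) : wt j ^ 2 * (1 + Real.sqrt (Pr j)) ≤ 2 * (1 / 4) ^ j := by
  have h0 := Real.sqrt_pos.2 (Pr_pos j)
  have h1 : (1 : ℝ) ≤ Real.sqrt (Pr j) := by
    rw [Real.one_le_sqrt]
    exact_mod_cast (Pr_prime j).one_lt.le
  have e : wt j ^ 2 = (1 / 4) ^ j / Real.sqrt (Pr j) := by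
    unfold wt
    rw [div_pow, Real.sq_sqrt h0.le, ← pow_mul, mul_comm j 2, pow_mul]
    norm_num
  rw [e, div_mul_eq_mul_div, div_le_iff₀ h0]
  have : (0 : ℝ) < (1 / 4) ^ j := by positivity
  nlinarith

lemma wt_big (j : ℕ) : (2 : ℝ) ^ j ≤ wt j * Real.sqrt (Pr j) := by
  have h0 := Real.sqrt_pos.2 (Pr_pos j)
  have h1 := Real.sqrt_pos.2 h0
  have e : wt j * Real.sqrt (Pr j) = (1 / 2) ^ j * Real.sqrt (Real.sqrt (Pr j)) := by
    unfold wt
    rw [div_mul_eq_mul_div, div_eq_iff h1.ne']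
    nth_rewrite 1 [← Real.sq_sqrt h0.le]
    ring
  have h2 : (4 : ℝ) ^ j ≤ Real.sqrt (Real.sqrt (Pr j)) := by
    rw [Real.le_sqrt' (by positivity), Real.le_sqrt' (by positivity), ← pow_mul, ← pow_mul]
    calc (4 : ℝ) ^ (j * (2 * 2)) = 256 ^ j := by
          rw [mul_comm j, pow_mul]
          norm_num
      _ ≤ Pr j := by
          have := Pr_ge j
          have h3 : 256 ^ j ≤ Pr j := by omega
          exact_mod_cast h3
  rw [e]
  calc (2 : ℝ) ^ j = (1 / 2) ^ j * 4 ^ j := by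
        rw [← mul_pow]
        norm_num
    _ ≤ _ := by gcongr

lemma wt_sum (J : Finset ℕ) : ∑ j ∈ J, wt j ^ 2 * (1 + Real.sqrt (Pr j)) ≤ 4 := by
  have hs : Summable (fun j : ℕ => 2 * (1 / 4 : ℝ) ^ j) :=
    (summable_geometric_of_lt_one (by norm_num) (by norm_num)).mul_left _
  calc ∑ j ∈ J, wt j ^ 2 * (1 + Real.sqrt (Pr j)) ≤ ∑ j ∈ J, 2 * (1 / 4 : ℝ) ^ j :=
        sum_le_sum fun j _ => wt_sq j
    _ ≤ ∑' j : ℕ, 2 * (1 / 4 : ℝ) ^ j := hs.sum_le_tsum _ fun j _ => by positivity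
    _ = 2 * (1 - 1 / 4)⁻¹ := by
        rw [tsum_mul_left, tsum_geometric_of_lt_one (by norm_num) (by norm_num)]
    _ ≤ 4 := by norm_num

/-- coordinates of the bilinear map -/
noncomputable def Vf (f h : Om → ℂ) (ω : Om) : ℂ := (wt ω.1 : ℂ) * bf (pt ω.1) f h ω.2

section lin

variable {Ω : Type} {p : ℕ} [NeZero p]

lemma cf_add (q : ZMod p → Ω) (k : ZMod p) (f f' : Ω → ℂ) :
    cf q k (f + f') = cf q k f + cf q k f' := by
  unfold cf
  rw [← mul_add, ← sum_add_distrib]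
  congr 1
  exact sum_congr rfl fun x _ => by rw [Pi.add_apply, mul_add]

lemma cf_smul (q : ZMod p → Ω) (k : ZMod p) (c : ℂ) (f : Ω → ℂ) :
    cf q k (c • f) = c * cf q k f := by
  unfold cf
  rw [mul_left_comm, mul_sum _ _ c]
  congr 1
  refine sum_congr rfl fun x _ => ?_
  rw [Pi.smul_apply, smul_eq_mul]
  ring

end lin

lemma Vf_add_left (f f' h : Om → ℂ) : Vf (f + f') h = Vf f h + Vf f' h := by
  funext ω
  simp only [Vf, bf, Pi.add_apply, cf_add]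
  rw [← mul_add, ← sum_add_distrib]
  congr 1
  exact sum_congr rfl fun x _ => by ring

lemma Vf_add_right (f h h' : Om → ℂ) : Vf f (h + h') = Vf f h + Vf f h' := by
  funext ω
  simp only [Vf, bf, Pi.add_apply, cf_add]
  rw [← mul_add, ← sum_add_distrib]
  congr 1
  exact sum_congr rfl fun x _ => by ring

lemma Vf_smul_left (c : ℂ) (f h : Om → ℂ) : Vf (c • f) h = c • Vf f h := by
  funext ω
  simp only [Vf, bf, Pi.smul_apply, cf_smul, smul_eq_mul]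
  rw [mul_left_comm, mul_sum _ _ c]
  congr 1
  refine sum_congr rfl fun x _ => ?_
  ring

lemma Vf_smul_right (c : ℂ) (f h : Om → ℂ) : Vf f (c • h) = c • Vf f h := by
  funext ω
  simp only [Vf, bf, Pi.smul_apply, cf_smul, smul_eq_mul]
  rw [mul_left_comm, mul_sum _ _ c]
  congr 1
  refine sum_congr rfl fun x _ => ?_
  ring

section bound

variable [PartialOrder (Om →ᵇ ℂ)] [StarOrderedRing (Om →ᵇ ℂ)]
variable {ι κ : Type} [Fintype ι] [DecidableEq ι] [Fintype κ] [DecidableEq κ]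

lemma finb (a : CStarMatrix ι ι (Om →ᵇ ℂ)) (b : CStarMatrix κ κ (Om →ᵇ ℂ)) (y : ι × κ → ℂ)
    (s : Finset Om) :
    ∑ ω ∈ s, ∑ r : ι × κ, ‖∑ q : ι × κ, Vf (a r.1 q.1) (b r.2 q.2) ω * y q‖ ^ 2
      ≤ 4 * (‖a‖ ^ 2 * ‖b‖ ^ 2) * ∑ q, ‖y q‖ ^ 2 := by
  classical
  set G : Om → ℝ := fun ω => ∑ r : ι × κ, ‖∑ q : ι × κ, Vf (a r.1 q.1) (b r.2 q.2) ω * y q‖ ^ 2
    with hG
  have hG0 : ∀ ω, 0 ≤ G ω := fun ω => by positivity
  set J : Finset ℕ := s.image (fun ω => ω.1) with hJ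
  have hsub : s ⊆ J.sigma (fun j => (univ : Finset (ZMod (Pr j)))) := by
    intro ω hω
    rw [mem_sigma]
    exact ⟨mem_image_of_mem _ hω, mem_univ _⟩
  have hblock : ∀ j : ℕ, ∑ x : ZMod (Pr j), G ⟨j, x⟩
      ≤ wt j ^ 2 * (1 + Real.sqrt (Pr j)) * ((‖a‖ ^ 2 * ‖b‖ ^ 2) * ∑ q, ‖y q‖ ^ 2) := by
    intro j
    have h := block (Pr_six j) (pt j) a b y
    have e1 : ∑ x : ZMod (Pr j), G ⟨j, x⟩ = wt j ^ 2 * ∑ x : ZMod (Pr j), ∑ r : ι × κ,
        ‖∑ q : ι × κ, bf (pt j) (a r.1 q.1) (b r.2 q.2) x * y q‖ ^ 2 := by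
      rw [mul_sum]
      refine sum_congr rfl fun x _ => ?_
      rw [mul_sum]
      refine sum_congr rfl fun r _ => ?_
      have : ∑ q : ι × κ, Vf (a r.1 q.1) (b r.2 q.2) ⟨j, x⟩ * y q
          = (wt j : ℂ) * ∑ q : ι × κ, bf (pt j) (a r.1 q.1) (b r.2 q.2) x * y q := by
        rw [mul_sum]
        exact sum_congr rfl fun q _ => by unfold Vf; dsimp only; ring
      rw [this, norm_mul, mul_pow, norm_real, Real.norm_of_nonneg (wt_pos j).le]
    rw [e1]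
    calc _ ≤ wt j ^ 2 * ((1 + Real.sqrt (Pr j)) * (‖a‖ ^ 2 * ‖b‖ ^ 2) * ∑ q, ‖y q‖ ^ 2) :=
          mul_le_mul_of_nonneg_left h (by positivity)
      _ = _ := by ring
  calc ∑ ω ∈ s, G ω ≤ ∑ ω ∈ J.sigma (fun j => (univ : Finset (ZMod (Pr j)))), G ω :=
        sum_le_sum_of_subset_of_nonneg hsub fun ω _ _ => hG0 ω
    _ = ∑ j ∈ J, ∑ x : ZMod (Pr j), G ⟨j, x⟩ := sum_sigma _ _ _
    _ ≤ ∑ j ∈ J, wt j ^ 2 * (1 + Real.sqrt (Pr j)) * ((‖a‖ ^ 2 * ‖b‖ ^ 2) * ∑ q, ‖y q‖ ^ 2) :=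
        sum_le_sum fun j _ => hblock j
    _ = (∑ j ∈ J, wt j ^ 2 * (1 + Real.sqrt (Pr j))) * ((‖a‖ ^ 2 * ‖b‖ ^ 2) * ∑ q, ‖y q‖ ^ 2) := by
        rw [sum_mul]
    _ ≤ 4 * ((‖a‖ ^ 2 * ‖b‖ ^ 2) * ∑ q, ‖y q‖ ^ 2) :=
        mul_le_mul_of_nonneg_right (wt_sum J) (by positivity)
    _ = _ := by ring

end bound

/-- the Hilbert space -/
abbrev HH : Type := lp (fun _ : Om => ℂ) 2

lemma two_toReal : (2 : ENNReal).toReal = ((2 : ℕ) : ℝ) := by norm_num

lemma Vf_mem (f h : Om →ᵇ ℂ) : Memℓp (Vf f h) 2 := by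
  let _ : PartialOrder (Om →ᵇ ℂ) := CStarAlgebra.spectralOrder (Om →ᵇ ℂ)
  have _ : StarOrderedRing (Om →ᵇ ℂ) := CStarAlgebra.spectralOrderedRing (Om →ᵇ ℂ)
  set a : CStarMatrix (Fin 1) (Fin 1) (Om →ᵇ ℂ) := fun _ _ => f with ha
  set b : CStarMatrix (Fin 1) (Fin 1) (Om →ᵇ ℂ) := fun _ _ => h with hb
  refine memℓp_gen' (C := 4 * (‖a‖ ^ 2 * ‖b‖ ^ 2) * ∑ _q : Fin 1 × Fin 1, ‖(1 : ℂ)‖ ^ 2) fun s => ?_
  refine le_trans (le_of_eq ?_) (finb a b (fun _ => 1) s)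
  refine sum_congr rfl fun ω _ => ?_
  rw [two_toReal, Real.rpow_natCast, Fintype.sum_prod_type]
  simp only [univ_unique, sum_singleton, mul_one]
  rw [Fintype.sum_prod_type]
  simp only [univ_unique, sum_singleton]
  rfl

/-- the vector valued bilinear map -/
noncomputable def VV (f h : Om →ᵇ ℂ) : HH := ⟨Vf f h, Vf_mem f h⟩

lemma VV_apply (f h : Om →ᵇ ℂ) (ω : Om) : VV f h ω = Vf f h ω := rfl

/-- the unit vector -/
noncomputable def e0 : HH := lp.single 2 (pt 0 0) (1 : ℂ)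

lemma e0_norm : ‖e0‖ = 1 := by
  unfold e0
  rw [lp.norm_single (by norm_num)]
  simp

/-- the bilinear map -/
noncomputable def Phi : (Om →ᵇ ℂ) →ₗ[ℂ] (Om →ᵇ ℂ) →ₗ[ℂ] (HH →L[ℂ] HH) :=
  LinearMap.mk₂ ℂ (fun f h => (innerSL ℂ e0).smulRight (VV f h))
    (fun f f' h => by
      have : VV (f + f') h = VV f h + VV f' h := by
        apply lp.ext
        exact Vf_add_left f f' h
      ext1 ξ
      simp only [ContinuousLinearMap.smulRight_apply, _root_.add_apply, this, smul_add])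
    (fun c f h => by
      have : VV (c • f) h = c • VV f h := by
        apply lp.ext
        exact Vf_smul_left c f h
      ext1 ξ
      simp only [ContinuousLinearMap.smulRight_apply, _root_.smul_apply, this]
      exact smul_comm _ _ _)
    (fun f h h' => by
      have : VV f (h + h') = VV f h + VV f h' := by
        apply lp.ext
        exact Vf_add_right f h h'
      ext1 ξ
      simp only [ContinuousLinearMap.smulRight_apply, _root_.add_apply, this, smul_add])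
    (fun c f h => by
      have : VV f (c • h) = c • VV f h := by
        apply lp.ext
        exact Vf_smul_right c f h
      ext1 ξ
      simp only [ContinuousLinearMap.smulRight_apply, _root_.smul_apply, this]
      exact smul_comm _ _ _)

lemma Phi_apply (f h : Om →ᵇ ℂ) (ξ : HH) : Phi f h ξ = (inner ℂ e0 ξ : ℂ) • VV f h := rfl

lemma hh_sum (v : HH) : HasSum (fun ω => ‖v ω‖ ^ 2) (‖v‖ ^ 2) := by
  have h := lp.hasSum_norm (p := 2) (by norm_num) v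
  simpa only [two_toReal, Real.rpow_natCast] using h

lemma phi_jcb [PartialOrder (Om →ᵇ ℂ)] [StarOrderedRing (Om →ᵇ ℂ)] (n m : ℕ)
    (a : CStarMatrix (Fin n) (Fin n) (Om →ᵇ ℂ)) (b : CStarMatrix (Fin m) (Fin m) (Om →ᵇ ℂ))
    (x : Fin n × Fin m → HH) :
    ∑ r : Fin n × Fin m, ‖∑ q : Fin n × Fin m, Phi (a r.1 q.1) (b r.2 q.2) (x q)‖ ^ 2
      ≤ (2 * ‖a‖ * ‖b‖) ^ 2 * ∑ q : Fin n × Fin m, ‖x q‖ ^ 2 := by
  classical
  have h1 : HasSum (fun ω => ∑ r : Fin n × Fin m,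
      ‖(∑ q : Fin n × Fin m, Phi (a r.1 q.1) (b r.2 q.2) (x q) : HH) ω‖ ^ 2)
      (∑ r : Fin n × Fin m, ‖∑ q : Fin n × Fin m, Phi (a r.1 q.1) (b r.2 q.2) (x q)‖ ^ 2) :=
    hasSum_sum fun r _ => hh_sum _
  refine hasSum_le_of_sum_le h1 fun s => ?_
  have h2 := finb a b (fun q => inner ℂ e0 (x q)) s
  have h3 : ∑ ω ∈ s, ∑ r : Fin n × Fin m,
      ‖(∑ q : Fin n × Fin m, Phi (a r.1 q.1) (b r.2 q.2) (x q) : HH) ω‖ ^ 2
      = ∑ ω ∈ s, ∑ r : Fin n × Fin m,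
        ‖∑ q : Fin n × Fin m, Vf (a r.1 q.1) (b r.2 q.2) ω * inner ℂ e0 (x q)‖ ^ 2 := by
    refine sum_congr rfl fun ω _ => sum_congr rfl fun r _ => ?_
    rw [lp.coeFn_sum, Finset.sum_apply]
    congr 2
    refine sum_congr rfl fun q _ => ?_
    rw [Phi_apply, lp.coeFn_smul, Pi.smul_apply, smul_eq_mul, VV_apply, mul_comm]
  rw [h3]
  refine h2.trans ?_
  have h4 : ∑ q : Fin n × Fin m, ‖(inner ℂ e0 (x q) : ℂ)‖ ^ 2 ≤ ∑ q : Fin n × Fin m, ‖x q‖ ^ 2 := by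
    refine sum_le_sum fun q _ => ?_
    refine pow_le_pow_left₀ (norm_nonneg _) ?_ 2
    have := norm_inner_le_norm (𝕜 := ℂ) e0 (x q)
    rwa [e0_norm, one_mul] at this
  calc 4 * (‖a‖ ^ 2 * ‖b‖ ^ 2) * ∑ q : Fin n × Fin m, ‖(inner ℂ e0 (x q) : ℂ)‖ ^ 2
      ≤ 4 * (‖a‖ ^ 2 * ‖b‖ ^ 2) * ∑ q : Fin n × Fin m, ‖x q‖ ^ 2 :=
        mul_le_mul_of_nonneg_left h4 (by positivity)
    _ = _ := by ring

/-- coefficients of the characters -/
lemma cf_gg (j : ℕ) (k k' : ZMod (Pr j)) :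
    cf (pt j) k' (gg j k) = if k = k' then 1 else 0 := by
  unfold cf
  have e : ∀ x : ZMod (Pr j), ee (-(x * k')) * gg j k (pt j x) = ee (x * (k - k')) := by
    intro x
    change ee (-(x * k')) * gf j k (pt j x) = _
    rw [gf_same, ← ee_add]
    congr 1
    ring
  rw [sum_congr rfl fun x _ => e x, sum_ee]
  have hp : ((Pr j : ℕ) : ℂ) ≠ 0 := by exact_mod_cast (Pr_prime j).ne_zero
  by_cases h : k = k'
  · simp [h, hp]
  · simp [h, sub_eq_zero]

lemma cf_gg_ne (i j : ℕ) (hij : i ≠ j) (k : ZMod (Pr j)) (k' : ZMod (Pr i)) :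
    cf (pt i) k' (gg j k) = 0 := by
  unfold cf
  have e : ∀ x : ZMod (Pr i), ee (-(x * k')) * gg j k (pt i x) = 0 := by
    intro x
    change ee (-(x * k')) * gf j k (pt i x) = _
    rw [gf_other j k _ hij, mul_zero]
  rw [sum_congr rfl fun x _ => e x]
  simp

lemma VV_gg (j : ℕ) (k l : ZMod (Pr j)) :
    VV (gg j k) (gg j l) = ((wt j : ℂ) * FF k l) • lp.single 2 (pt j (k - l)) (1 : ℂ) := by
  apply lp.ext
  funext ω
  rw [VV_apply, lp.coeFn_smul, Pi.smul_apply, smul_eq_mul, lp.single_apply]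
  obtain ⟨i, x⟩ := ω
  by_cases hij : i = j
  · subst hij
    unfold Vf bf
    dsimp only
    have e : ∀ l' : ZMod (Pr i), FF (x + l') l' * (cf (pt i) (x + l') (gg i k) * cf (pt i) l' (gg i l))
        = if l' = l then FF (x + l) l * (if k = x + l then 1 else 0) else 0 := by
      intro l'
      rw [cf_gg, cf_gg]
      by_cases h : l' = l
      · subst h
        simp
      · simp [h, Ne.symm h]
    rw [sum_congr rfl fun l' _ => e l', sum_ite_eq' univ l, if_pos (mem_univ _), mul_assoc]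
    congr 1
    by_cases hk : k = x + l
    · subst hk
      rw [if_pos rfl, mul_one, add_sub_cancel_right]
      have : (⟨i, x⟩ : Om) = pt i x := rfl
      rw [this, Pi.single_eq_same, mul_one]
    · rw [if_neg hk, mul_zero, Pi.single_eq_of_ne, mul_zero]
      intro h
      apply hk
      have h' : (⟨i, x⟩ : Σ j : ℕ, ZMod (Pr j)) = ⟨i, k - l⟩ := h
      have := eq_of_heq (Sigma.mk.inj h').2
      rw [this, sub_add_cancel]
  · have h0 : Vf (gg j k) (gg j l) ⟨i, x⟩ = 0 := by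
      unfold Vf bf
      dsimp only
      rw [sum_eq_zero, mul_zero]
      intro l' _
      rw [cf_gg_ne i j hij, zero_mul, mul_zero]
    rw [h0, Pi.single_eq_of_ne, mul_zero]
    intro h
    apply hij
    have h' : (⟨i, x⟩ : Σ j : ℕ, ZMod (Pr j)) = ⟨j, k - l⟩ := h
    exact (Sigma.mk.inj h').1

end Pool.Agent.W2helper17.BL
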