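import Mathlib

/-! Matrices over bounded functions: evaluation and the norm. -/

set_option autoImplicit false

namespace Pool.Agent.W2helper17.BL

open Finset Complex
open scoped ComplexConjugate CStarMatrix BoundedContinuousFunction Kronecker

variable {Ω : Type} [TopologicalSpace Ω]

section ev

variable {ι κ : Type} [Fintype ι] [DecidableEq ι] [Fintype κ] [DecidableEq κ]

/-- the matrix of values at `ω` -/
noncomputable def vm (ω : Ω) (a : CStarMatrix ι ι (Ω →ᵇ ℂ)) : Matrix ι ι ℂ := Matrix.of fun i j => a i j ω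

omit [DecidableEq ι] in
lemma vm_mul (ω : Ω) (a b : CStarMatrix ι ι (Ω →ᵇ ℂ)) : vm ω (a * b) = vm ω a * vm ω b := by
  ext i j
  simp only [vm, Matrix.of_apply, CStarMatrix.mul_apply, Matrix.mul_apply]
  rw [BoundedContinuousFunction.sum_apply]
  rfl

omit [Fintype ι] [DecidableEq ι] in
lemma vm_star (ω : Ω) (a : CStarMatrix ι ι (Ω →ᵇ ℂ)) : vm ω (star a) = star (vm ω a) := by
  ext i j
  rfl

/-- `a(ω) ⊗ 1` -/
noncomputable def evL (ω : Ω) : CStarMatrix ι ι (Ω →ᵇ ℂ) →⋆ₙₐ[ℂ]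
    (EuclideanSpace ℂ (ι × κ) →L[ℂ] EuclideanSpace ℂ (ι × κ)) where
  toFun a := Matrix.toEuclideanCLM (n := ι × κ) (𝕜 := ℂ) (vm ω a ⊗ₖ (1 : Matrix κ κ ℂ))
  map_smul' c a := by
    have : vm ω (c • a) = c • vm ω a := by ext i j; rfl
    rw [this, Matrix.smul_kronecker, map_smul]
    rfl
  map_zero' := by
    have : vm ω (0 : CStarMatrix ι ι (Ω →ᵇ ℂ)) = 0 := by ext i j; rfl
    rw [this, Matrix.zero_kronecker, map_zero]
  map_add' a b := by
    have : vm ω (a + b) = vm ω a + vm ω b := by ext i j; rfl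
    rw [this, Matrix.add_kronecker, map_add]
  map_mul' a b := by
    rw [vm_mul, ← map_mul, ← Matrix.mul_kronecker_mul, one_mul]
  map_star' a := by
    rw [vm_star, ← map_star, Matrix.star_eq_conjTranspose, Matrix.star_eq_conjTranspose,
      Matrix.conjTranspose_kronecker, Matrix.conjTranspose_one]

/-- `1 ⊗ b(ω)` -/
noncomputable def evR (ω : Ω) : CStarMatrix κ κ (Ω →ᵇ ℂ) →⋆ₙₐ[ℂ]
    (EuclideanSpace ℂ (ι × κ) →L[ℂ] EuclideanSpace ℂ (ι × κ)) where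
  toFun a := Matrix.toEuclideanCLM (n := ι × κ) (𝕜 := ℂ) ((1 : Matrix ι ι ℂ) ⊗ₖ vm ω a)
  map_smul' c a := by
    have : vm ω (c • a) = c • vm ω a := by ext i j; rfl
    rw [this, Matrix.kronecker_smul, map_smul]
    rfl
  map_zero' := by
    have : vm ω (0 : CStarMatrix κ κ (Ω →ᵇ ℂ)) = 0 := by ext i j; rfl
    rw [this, Matrix.kronecker_zero, map_zero]
  map_add' a b := by
    have : vm ω (a + b) = vm ω a + vm ω b := by ext i j; rfl
    rw [this, Matrix.kronecker_add, map_add]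
  map_mul' a b := by
    rw [vm_mul, ← map_mul, ← Matrix.mul_kronecker_mul, one_mul]
  map_star' a := by
    rw [vm_star, ← map_star, Matrix.star_eq_conjTranspose, Matrix.star_eq_conjTranspose,
      Matrix.conjTranspose_kronecker, Matrix.conjTranspose_one]

lemma ev_comm (ω ω' : Ω) (a : CStarMatrix ι ι (Ω →ᵇ ℂ)) (b : CStarMatrix κ κ (Ω →ᵇ ℂ)) :
    (evL (κ := κ) ω a) * (evR (ι := ι) ω' b) = (evR (ι := ι) ω' b) * (evL (κ := κ) ω a) := by
  change Matrix.toEuclideanCLM (n := ι × κ) (𝕜 := ℂ) _ * Matrix.toEuclideanCLM (n := ι × κ) (𝕜 := ℂ) _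
    = Matrix.toEuclideanCLM (n := ι × κ) (𝕜 := ℂ) _ * Matrix.toEuclideanCLM (n := ι × κ) (𝕜 := ℂ) _
  rw [← map_mul, ← map_mul, ← Matrix.mul_kronecker_mul, ← Matrix.mul_kronecker_mul]
  simp

lemma evL_apply (ω : Ω) (a : CStarMatrix ι ι (Ω →ᵇ ℂ)) (y : EuclideanSpace ℂ (ι × κ)) (q : ι × κ) :
    evL ω a y q = ∑ i, a q.1 i ω * y (i, q.2) := by
  change (Matrix.toEuclideanCLM (n := ι × κ) (𝕜 := ℂ) (vm ω a ⊗ₖ (1 : Matrix κ κ ℂ)) y).ofLp q = _
  rw [Matrix.ofLp_toEuclideanCLM, Matrix.mulVec, dotProduct, Fintype.sum_prod_type]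
  refine sum_congr rfl fun i _ => ?_
  simp only [Matrix.kroneckerMap_apply, Matrix.one_apply, vm, Matrix.of_apply]
  simp

lemma evR_apply (ω : Ω) (b : CStarMatrix κ κ (Ω →ᵇ ℂ)) (y : EuclideanSpace ℂ (ι × κ)) (q : ι × κ) :
    evR ω b y q = ∑ i, b q.2 i ω * y (q.1, i) := by
  change (Matrix.toEuclideanCLM (n := ι × κ) (𝕜 := ℂ) ((1 : Matrix ι ι ℂ) ⊗ₖ vm ω b) y).ofLp q = _
  rw [Matrix.ofLp_toEuclideanCLM, Matrix.mulVec, dotProduct, Fintype.sum_prod_type, sum_comm]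
  refine sum_congr rfl fun i _ => ?_
  simp only [Matrix.kroneckerMap_apply, Matrix.one_apply, vm, Matrix.of_apply]
  simp

end ev

section norm

variable [PartialOrder (Ω →ᵇ ℂ)] [StarOrderedRing (Ω →ᵇ ℂ)]
variable {ι κ : Type} [Fintype ι] [DecidableEq ι] [Fintype κ] [DecidableEq κ]

lemma evL_norm (ω : Ω) (a : CStarMatrix ι ι (Ω →ᵇ ℂ)) : ‖evL (κ := κ) ω a‖ ≤ ‖a‖ :=
  NonUnitalStarAlgHom.norm_apply_le _ _

lemma evR_norm (ω : Ω) (a : CStarMatrix κ κ (Ω →ᵇ ℂ)) : ‖evR (ι := ι) ω a‖ ≤ ‖a‖ :=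
  NonUnitalStarAlgHom.norm_apply_le _ _

omit [DecidableEq ι] in
/-- upper bound of the norm by pointwise estimates -/
lemma norm_le_of (M : CStarMatrix ι ι (Ω →ᵇ ℂ)) (K : ℝ) (hK : 0 ≤ K)
    (h : ∀ (ω : Ω) (z : ι → ℂ), ∑ j, ‖∑ i, z i * M i j ω‖ ^ 2 ≤ K ^ 2 * ∑ i, ‖z i‖ ^ 2) :
    ‖M‖ ≤ K := by
  rw [CStarMatrix.norm_def]
  refine ContinuousLinearMap.opNorm_le_bound _ hK fun v => ?_
  have e1 : ∀ (w : WithCStarModule (Ω →ᵇ ℂ) (ι → (Ω →ᵇ ℂ))) (ω : Ω),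
      (∑ i, inner (Ω →ᵇ ℂ) (w i) (w i)) ω = ((∑ i, ‖w i ω‖ ^ 2 : ℝ) : ℂ) := by
    intro w ω
    rw [BoundedContinuousFunction.sum_apply, ofReal_sum]
    refine sum_congr rfl fun i _ => ?_
    rw [WithCStarModule.inner_def]
    change w i ω * conj (w i ω) = _
    rw [mul_conj, normSq_eq_norm_sq]
  refine le_of_sq_le_sq ?_ (by positivity)
  rw [mul_pow, WithCStarModule.pi_norm_sq]
  rw [BoundedContinuousFunction.norm_le (by positivity)]
  intro ω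
  rw [e1, norm_real, Real.norm_of_nonneg (by positivity)]
  have e2 : ∑ j, ‖(CStarMatrix.toCLM M v) j ω‖ ^ 2 = ∑ j, ‖∑ i, v i ω * M i j ω‖ ^ 2 := by
    refine sum_congr rfl fun j _ => ?_
    rw [CStarMatrix.toCLM_apply_eq_sum]
    change ‖(∑ i, v i * M i j : Ω →ᵇ ℂ) ω‖ ^ 2 = _
    rw [BoundedContinuousFunction.sum_apply]
    rfl
  rw [e2]
  refine (h ω fun i => v i ω).trans ?_
  refine mul_le_mul_of_nonneg_left ?_ (by positivity)
  have e3 : ∑ i, ‖v i ω‖ ^ 2 = ‖(∑ i, inner (Ω →ᵇ ℂ) (v i) (v i)) ω‖ := by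
    rw [e1, norm_real, Real.norm_of_nonneg (by positivity)]
  rw [e3, WithCStarModule.pi_norm_sq]
  exact BoundedContinuousFunction.norm_coe_le_norm _ _

end norm

end Pool.Agent.W2helper17.BL
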