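import Pool.Agent.W2helper17.BL.Jcb
import Pool.Agent.W2helper17.BL.Mat

/-! The Fourier coefficients of matrices over bounded functions, and the block estimate. -/

set_option autoImplicit false

namespace Pool.Agent.W2helper17.BL

open Finset Complex
open scoped ComplexConjugate CStarMatrix BoundedContinuousFunction

section gen

variable {p : ℕ} [NeZero p]
variable {𝓗 : Type*} [NormedAddCommGroup 𝓗] [InnerProductSpace ℂ 𝓗]

/-- Fourier coefficients of an operator valued function -/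
noncomputable def fc (T : ZMod p → 𝓗 →L[ℂ] 𝓗) (k : ZMod p) : 𝓗 →L[ℂ] 𝓗 :=
  (p : ℂ)⁻¹ • ∑ x : ZMod p, ee (-(x * k)) • T x

lemma fc_apply (T : ZMod p → 𝓗 →L[ℂ] 𝓗) (k : ZMod p) (z : 𝓗) :
    fc T k z = (p : ℂ)⁻¹ • ∑ x : ZMod p, ee (-(x * k)) • T x z := by
  unfold fc
  rw [_root_.smul_apply, _root_.sum_apply]
  rfl

lemma fc_sq (T : ZMod p → 𝓗 →L[ℂ] 𝓗) (M : ℝ) (hT : ∀ x, ‖T x‖ ≤ M) (z : 𝓗) :
    ∑ k, ‖fc T k z‖ ^ 2 ≤ M ^ 2 * ‖z‖ ^ 2 := by
  have hp : (0 : ℝ) < p := by exact_mod_cast Nat.pos_of_ne_zero (NeZero.ne p)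
  have e1 : ∀ k : ZMod p, ‖fc T k z‖ ^ 2
      = ((p : ℝ)⁻¹) ^ 2 * ‖∑ x : ZMod p, ee (-(x * k)) • T x z‖ ^ 2 := by
    intro k
    rw [fc_apply, norm_smul, mul_pow, norm_inv, norm_natCast]
  rw [sum_congr rfl fun k _ => e1 k, ← mul_sum, parseval_neg (fun x => T x z)]
  have e2 : ∑ x : ZMod p, ‖T x z‖ ^ 2 ≤ p * (M ^ 2 * ‖z‖ ^ 2) := by
    calc ∑ x : ZMod p, ‖T x z‖ ^ 2 ≤ ∑ _x : ZMod p, M ^ 2 * ‖z‖ ^ 2 := by
          refine sum_le_sum fun x _ => ?_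
          rw [← mul_pow]
          refine pow_le_pow_left₀ (norm_nonneg _) ?_ 2
          exact ((T x).le_opNorm z).trans (mul_le_mul_of_nonneg_right (hT x) (norm_nonneg _))
      _ = _ := by rw [sum_const, card_univ, ZMod.card, nsmul_eq_mul]
  calc ((p : ℝ)⁻¹) ^ 2 * (p * ∑ x : ZMod p, ‖T x z‖ ^ 2)
      ≤ ((p : ℝ)⁻¹) ^ 2 * (p * (p * (M ^ 2 * ‖z‖ ^ 2))) := by gcongr
    _ = M ^ 2 * ‖z‖ ^ 2 := by field_simp

variable [CompleteSpace 𝓗]

lemma fc_adj (T : ZMod p → 𝓗 →L[ℂ] 𝓗) (k : ZMod p) :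
    ContinuousLinearMap.adjoint (fc T k)
      = fc (fun x => ContinuousLinearMap.adjoint (T x)) (-k) := by
  unfold fc
  rw [map_smulₛₗ, map_sum]
  congr 1
  · simp
  · refine sum_congr rfl fun x _ => ?_
    rw [map_smulₛₗ, ← ee_neg]
    congr 2
    ring

lemma fc_adj_sq (T : ZMod p → 𝓗 →L[ℂ] 𝓗) (M : ℝ) (hT : ∀ x, ‖T x‖ ≤ M) (z : 𝓗) :
    ∑ k, ‖ContinuousLinearMap.adjoint (fc T k) z‖ ^ 2 ≤ M ^ 2 * ‖z‖ ^ 2 := by
  have h := fc_sq (fun x => ContinuousLinearMap.adjoint (T x)) M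
    (fun x => by rw [LinearIsometryEquiv.norm_map]; exact hT x) z
  rw [← Equiv.sum_comp (Equiv.neg (ZMod p))] at h
  refine le_trans (le_of_eq ?_) h
  refine sum_congr rfl fun k _ => ?_
  rw [fc_adj]
  rfl

omit [CompleteSpace 𝓗] in
lemma fc_comm (T T' : ZMod p → 𝓗 →L[ℂ] 𝓗) (h : ∀ x x', T x * T' x' = T' x' * T x) (k l : ZMod p) :
    fc T k * fc T' l = fc T' l * fc T k := by
  have h1 : Commute (∑ x : ZMod p, ee (-(x * k)) • T x) (∑ x : ZMod p, ee (-(x * l)) • T' x) := by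
    refine Commute.sum_left _ _ _ fun x _ => Commute.sum_right _ _ _ fun x' _ => ?_
    exact ((show Commute (T x) (T' x') from h x x').smul_left _).smul_right _
  exact (h1.smul_left _).smul_right _

end gen

section block

variable {Ω : Type} [TopologicalSpace Ω] [PartialOrder (Ω →ᵇ ℂ)] [StarOrderedRing (Ω →ᵇ ℂ)]
variable {ι κ : Type} [Fintype ι] [DecidableEq ι] [Fintype κ] [DecidableEq κ]
variable {p : ℕ} [NeZero p]

/-- Fourier coefficient of the function `x ↦ f (pt x)` -/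
noncomputable def cf (pt : ZMod p → Ω) (k : ZMod p) (f : Ω → ℂ) : ℂ :=
  (p : ℂ)⁻¹ * ∑ x : ZMod p, ee (-(x * k)) * f (pt x)

omit [PartialOrder (Ω →ᵇ ℂ)] [StarOrderedRing (Ω →ᵇ ℂ)] in
lemma fcL_apply (pt : ZMod p → Ω) (a : CStarMatrix ι ι (Ω →ᵇ ℂ)) (k : ZMod p)
    (y : EuclideanSpace ℂ (ι × κ)) (q : ι × κ) :
    fc (fun x => evL (κ := κ) (pt x) a) k y q = ∑ i, cf pt k (a q.1 i) * y (i, q.2) := by
  rw [fc_apply]
  simp only [PiLp.smul_apply, WithLp.ofLp_sum, Finset.sum_apply, smul_eq_mul]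
  simp only [evL_apply, cf, mul_sum, sum_mul]
  rw [sum_comm]
  refine sum_congr rfl fun i _ => sum_congr rfl fun x _ => ?_
  ring

omit [PartialOrder (Ω →ᵇ ℂ)] [StarOrderedRing (Ω →ᵇ ℂ)] in
lemma fcR_apply (pt : ZMod p → Ω) (b : CStarMatrix κ κ (Ω →ᵇ ℂ)) (k : ZMod p)
    (y : EuclideanSpace ℂ (ι × κ)) (q : ι × κ) :
    fc (fun x => evR (ι := ι) (pt x) b) k y q = ∑ i, cf pt k (b q.2 i) * y (q.1, i) := by
  rw [fc_apply]
  simp only [PiLp.smul_apply, WithLp.ofLp_sum, Finset.sum_apply, smul_eq_mul]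
  simp only [evR_apply, cf, mul_sum, sum_mul]
  rw [sum_comm]
  refine sum_congr rfl fun i _ => sum_congr rfl fun x _ => ?_
  ring

/-- the bilinear map, in coordinates -/
noncomputable def bf (pt : ZMod p → Ω) (f h : Ω → ℂ) (x : ZMod p) : ℂ :=
  ∑ l : ZMod p, FF (x + l) l * (cf pt (x + l) f * cf pt l h)

lemma block [Fact p.Prime] (h6 : (6 : ZMod p) ≠ 0) (pt : ZMod p → Ω)
    (a : CStarMatrix ι ι (Ω →ᵇ ℂ)) (b : CStarMatrix κ κ (Ω →ᵇ ℂ)) (y : ι × κ → ℂ) :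
    ∑ x : ZMod p, ∑ r : ι × κ, ‖∑ q : ι × κ, bf pt (a r.1 q.1) (b r.2 q.2) x * y q‖ ^ 2
      ≤ (1 + Real.sqrt p) * (‖a‖ ^ 2 * ‖b‖ ^ 2) * ∑ q, ‖y q‖ ^ 2 := by
  set Y : EuclideanSpace ℂ (ι × κ) := WithLp.toLp 2 y with hY
  set R : ZMod p → EuclideanSpace ℂ (ι × κ) →L[ℂ] EuclideanSpace ℂ (ι × κ) :=
    fc (fun x => evL (κ := κ) (pt x) a) with hR
  set S : ZMod p → EuclideanSpace ℂ (ι × κ) →L[ℂ] EuclideanSpace ℂ (ι × κ) :=
    fc (fun x => evR (ι := ι) (pt x) b) with hS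
  have hc : ∀ k l, R k * S l = S l * R k := fun k l =>
    fc_comm _ _ (fun x x' => ev_comm _ _ _ _) k l
  have hc' : ∀ k l, ContinuousLinearMap.adjoint (R k) * S l
      = S l * ContinuousLinearMap.adjoint (R k) := by
    intro k l
    rw [hR, fc_adj]
    refine fc_comm _ _ (fun x x' => ?_) _ _
    have e : ContinuousLinearMap.adjoint (evL (κ := κ) (pt x) a) = evL (κ := κ) (pt x) (star a) := by
      rw [map_star]
      rfl
    rw [e]
    exact ev_comm _ _ _ _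
  have h := jcb h6 R S (‖a‖ ^ 2) (‖b‖ ^ 2) (by positivity) (by positivity)
    (fun k l y => congrArg (fun T : EuclideanSpace ℂ (ι × κ) →L[ℂ] EuclideanSpace ℂ (ι × κ) => T y)
      (hc k l))
    (fun k l y => congrArg (fun T : EuclideanSpace ℂ (ι × κ) →L[ℂ] EuclideanSpace ℂ (ι × κ) => T y)
      (hc' k l))
    (fc_sq _ _ fun x => evL_norm _ _)
    (fc_adj_sq _ _ fun x => evL_norm _ _)
    (fc_sq _ _ fun x => evR_norm _ _)
    (fc_adj_sq _ _ fun x => evR_norm _ _) Y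
  have hYn : ‖Y‖ ^ 2 = ∑ q, ‖y q‖ ^ 2 := EuclideanSpace.norm_sq_eq _
  rw [hYn] at h
  refine le_trans (le_of_eq ?_) h
  refine sum_congr rfl fun x _ => ?_
  rw [EuclideanSpace.norm_sq_eq]
  refine sum_congr rfl fun r _ => ?_
  congr 2
  simp only [PiLp.smul_apply, WithLp.ofLp_sum, Finset.sum_apply, smul_eq_mul]
  simp only [hR, hS, fcL_apply, fcR_apply, bf, sum_mul, mul_sum]
  rw [sum_comm]
  refine sum_congr rfl fun l _ => ?_
  rw [Fintype.sum_prod_type]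
  refine sum_congr rfl fun i _ => sum_congr rfl fun s _ => ?_
  change FF (x + l) l * (cf pt (x + l) (a r.1 i) * cf pt l (b r.2 s)) * y (i, s)
    = FF (x + l) l * (cf pt (x + l) (a r.1 i) * (cf pt l (b r.2 s) * y (i, s)))
  ring

end block

end Pool.Agent.W2helper17.BL
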