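import Mathlib

/-! Parseval's identity on `ZMod p` for vector valued functions, and consequences. -/

set_option autoImplicit false

namespace Pool.Agent.W2helper17.BL

open Finset Complex
open scoped ComplexConjugate

variable {p : ℕ} [NeZero p]

/-- the standard character -/
noncomputable abbrev ee (x : ZMod p) : ℂ := ZMod.stdAddChar x

lemma ee_norm (x : ZMod p) : ‖ee x‖ = 1 := by
  unfold ee
  rw [ZMod.stdAddChar_apply]
  exact Circle.norm_coe _

lemma ee_add (x y : ZMod p) : ee (x + y) = ee x * ee y := AddChar.map_add_eq_mul _ _ _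

lemma ee_zero : ee (0 : ZMod p) = 1 := AddChar.map_zero_eq_one _

lemma ee_neg (x : ZMod p) : ee (-x) = conj (ee x) := by
  unfold ee
  rw [AddChar.map_neg_eq_conj]

lemma ee_conj_mul (x : ZMod p) : conj (ee x) * ee x = 1 := by
  rw [← ee_neg, ← ee_add]; simp

lemma sum_ee (y : ZMod p) : ∑ x : ZMod p, ee (x * y) = if y = 0 then (p : ℂ) else 0 := by
  unfold ee
  rw [AddChar.sum_mulShift y (ZMod.isPrimitive_stdAddChar p)]
  split_ifs <;> simp [ZMod.card]

variable {E : Type*} [NormedAddCommGroup E] [InnerProductSpace ℂ E]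

lemma nsq (x : E) : ((‖x‖ ^ 2 : ℝ) : ℂ) = inner ℂ x x := by
  rw [inner_self_eq_norm_sq_to_K (𝕜 := ℂ) x]
  push_cast
  rfl

/-- Parseval's identity -/
lemma parseval (u : ZMod p → E) :
    ∑ k : ZMod p, ‖∑ x : ZMod p, ee (x * k) • u x‖ ^ 2 = p * ∑ x : ZMod p, ‖u x‖ ^ 2 := by
  have h : ((∑ k : ZMod p, ‖∑ x : ZMod p, ee (x * k) • u x‖ ^ 2 : ℝ) : ℂ)
      = ((p * ∑ x : ZMod p, ‖u x‖ ^ 2 : ℝ) : ℂ) := by
    rw [ofReal_sum, ofReal_mul, ofReal_sum, ofReal_natCast]
    have e1 : ∀ k : ZMod p, ((‖∑ x : ZMod p, ee (x * k) • u x‖ ^ 2 : ℝ) : ℂ)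
        = ∑ x : ZMod p, ∑ y : ZMod p, ee (k * (y - x)) * inner ℂ (u x) (u y) := by
      intro k
      rw [nsq, sum_inner]
      refine sum_congr rfl fun x _ => ?_
      rw [inner_sum]
      refine sum_congr rfl fun y _ => ?_
      rw [inner_smul_left, inner_smul_right, ← mul_assoc, ← ee_neg, ← ee_add]
      congr 2
      ring
    rw [sum_congr rfl fun k _ => e1 k, sum_comm]
    have e2 : ∀ x : ZMod p, ∑ k : ZMod p, ∑ y : ZMod p, ee (k * (y - x)) * inner ℂ (u x) (u y)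
        = p * inner ℂ (u x) (u x) := by
      intro x
      rw [sum_comm]
      have : ∀ y : ZMod p, ∑ k : ZMod p, ee (k * (y - x)) * inner ℂ (u x) (u y)
          = if y = x then p * inner ℂ (u x) (u y) else 0 := by
        intro y
        rw [← sum_mul, sum_ee]
        by_cases hxy : y = x
        · simp [hxy]
        · simp [hxy, sub_eq_zero]
      rw [sum_congr rfl fun y _ => this y]
      simp
    rw [sum_congr rfl fun x _ => e2 x, ← mul_sum]
    congr 1
    refine sum_congr rfl fun x _ => ?_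
    rw [nsq]
  exact_mod_cast h

lemma parseval_neg (u : ZMod p → E) :
    ∑ k : ZMod p, ‖∑ x : ZMod p, ee (-(x * k)) • u x‖ ^ 2 = p * ∑ x : ZMod p, ‖u x‖ ^ 2 := by
  rw [← parseval u, ← Equiv.sum_comp (Equiv.neg (ZMod p))]
  refine sum_congr rfl fun k _ => ?_
  simp

/-- the bilinear estimate -/
lemma bilin [Fact p.Prime] (c : ZMod p) (hc : c ≠ 0) (u v : ZMod p → E) :
    ‖∑ k : ZMod p, ∑ l : ZMod p, ee (c * k * l) * inner ℂ (u k) (v l)‖
      ≤ Real.sqrt p * (Real.sqrt (∑ k, ‖u k‖ ^ 2) * Real.sqrt (∑ l, ‖v l‖ ^ 2)) := by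
  have e1 : ∑ k : ZMod p, ∑ l : ZMod p, ee (c * k * l) * inner ℂ (u k) (v l)
      = ∑ l : ZMod p, inner ℂ (∑ k : ZMod p, ee (-(k * (c * l))) • u k) (v l) := by
    rw [sum_comm]
    refine sum_congr rfl fun l _ => ?_
    rw [sum_inner]
    refine sum_congr rfl fun k _ => ?_
    rw [inner_smul_left, ← ee_neg]
    congr 2
    ring
  have e2 : ∑ l : ZMod p, ‖∑ k : ZMod p, ee (-(k * (c * l))) • u k‖ ^ 2
      = p * ∑ k : ZMod p, ‖u k‖ ^ 2 := by
    rw [← parseval_neg u]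
    exact Equiv.sum_comp (Equiv.mulLeft₀ c hc) (fun k => ‖∑ x : ZMod p, ee (-(x * k)) • u x‖ ^ 2)
  rw [e1]
  calc ‖∑ l : ZMod p, inner ℂ (∑ k : ZMod p, ee (-(k * (c * l))) • u k) (v l)‖
      ≤ ∑ l : ZMod p, ‖∑ k : ZMod p, ee (-(k * (c * l))) • u k‖ * ‖v l‖ :=
        (norm_sum_le _ _).trans (sum_le_sum fun l _ => norm_inner_le_norm _ _)
    _ ≤ Real.sqrt (∑ l : ZMod p, ‖∑ k : ZMod p, ee (-(k * (c * l))) • u k‖ ^ 2)
          * Real.sqrt (∑ l, ‖v l‖ ^ 2) := Real.sum_mul_le_sqrt_mul_sqrt _ _ _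
    _ = _ := by
        rw [e2, Real.sqrt_mul (by positivity)]
        ring

/-- the quadratic estimate -/
lemma quad [Fact p.Prime] (u : ZMod p → E) :
    ∑ l : ZMod p, ‖∑ x : ZMod p, ee (x * (l * l)) • u x‖ ^ 2 ≤ 2 * p * ∑ x : ZMod p, ‖u x‖ ^ 2 := by
  classical
  set G : ZMod p → ℝ := fun k => ‖∑ x : ZMod p, ee (x * k) • u x‖ ^ 2 with hG
  have hG0 : ∀ k, 0 ≤ G k := fun k => by positivity
  have h1 : ∑ l : ZMod p, G (l * l) = ∑ k : ZMod p, ∑ l ∈ univ.filter (fun l => l * l = k), G k := by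
    rw [← sum_fiberwise (s := univ) (g := fun l : ZMod p => l * l)]
    refine sum_congr rfl fun k _ => sum_congr rfl fun l hl => ?_
    rw [(mem_filter.1 hl).2]
  have h2 : ∀ k : ZMod p, (univ.filter (fun l : ZMod p => l * l = k)).card ≤ 2 := by
    intro k
    by_cases hk : (univ.filter (fun l : ZMod p => l * l = k)).Nonempty
    · obtain ⟨l0, hl0⟩ := hk
      have hl0' : l0 * l0 = k := (mem_filter.1 hl0).2
      have : univ.filter (fun l : ZMod p => l * l = k) ⊆ {l0, -l0} := by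
        intro l hl
        have hl' : l * l = k := (mem_filter.1 hl).2
        rw [mem_insert, mem_singleton]
        exact mul_self_eq_mul_self_iff.1 (hl'.trans hl0'.symm)
      exact (card_le_card this).trans card_le_two
    · rw [not_nonempty_iff_eq_empty.1 hk]
      simp
  calc ∑ l : ZMod p, G (l * l) = ∑ k : ZMod p, ∑ l ∈ univ.filter (fun l => l * l = k), G k := h1
    _ ≤ ∑ k : ZMod p, 2 * G k := by
        refine sum_le_sum fun k _ => ?_
        rw [sum_const, nsmul_eq_mul]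
        exact mul_le_mul_of_nonneg_right (by exact_mod_cast h2 k) (hG0 k)
    _ = 2 * p * ∑ x : ZMod p, ‖u x‖ ^ 2 := by
        rw [← mul_sum, parseval, mul_assoc]

end Pool.Agent.W2helper17.BL
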