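import Pool.Agent.W2helper17.BL.Four

/-! The upper bound: an inequality for commuting families of operators. -/

set_option autoImplicit false

namespace Pool.Agent.W2helper17.BL

open Finset Complex
open scoped ComplexConjugate

variable {p : ℕ} [NeZero p]

/-- the phase function -/
noncomputable def FF (k l : ZMod p) : ℂ := ee (3 * k * l * l - l * l * l)

lemma FF_norm (k l : ZMod p) : ‖FF k l‖ = 1 := ee_norm _

lemma FF_shift (k l d : ZMod p) :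
    conj (FF k l) * FF (k + d) (l + d)
      = ee (6 * d * k * l) * (ee (3 * d * d * k) * ee (3 * d * d * l + 2 * d * d * d)) := by
  unfold FF
  rw [← ee_neg, ← ee_add, ← ee_add, ← ee_add]
  congr 1
  ring

variable {𝓗 : Type*} [NormedAddCommGroup 𝓗] [InnerProductSpace ℂ 𝓗] [CompleteSpace 𝓗]

omit [CompleteSpace 𝓗] in
lemma norm_ee_smul (x : ZMod p) (v : 𝓗) : ‖ee x • v‖ = ‖v‖ := by
  rw [norm_smul, ee_norm, one_mul]

lemma jcb [Fact p.Prime] (h6 : (6 : ZMod p) ≠ 0) (R S : ZMod p → 𝓗 →L[ℂ] 𝓗) (α β : ℝ)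
    (hα : 0 ≤ α) (hβ : 0 ≤ β)
    (hRS : ∀ k l y, R k (S l y) = S l (R k y))
    (hRS' : ∀ k l y, ContinuousLinearMap.adjoint (R k) (S l y) = S l (ContinuousLinearMap.adjoint (R k) y))
    (hR : ∀ z, ∑ k, ‖R k z‖ ^ 2 ≤ α * ‖z‖ ^ 2)
    (hR' : ∀ z, ∑ k, ‖ContinuousLinearMap.adjoint (R k) z‖ ^ 2 ≤ α * ‖z‖ ^ 2)
    (hS : ∀ z, ∑ k, ‖S k z‖ ^ 2 ≤ β * ‖z‖ ^ 2)
    (hS' : ∀ z, ∑ k, ‖ContinuousLinearMap.adjoint (S k) z‖ ^ 2 ≤ β * ‖z‖ ^ 2) (y : 𝓗) :
    ∑ x : ZMod p, ‖∑ l : ZMod p, FF (x + l) l • R (x + l) (S l y)‖ ^ 2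
      ≤ (1 + Real.sqrt p) * (α * β) * ‖y‖ ^ 2 := by
  classical
  set ψ : ZMod p → ZMod p → 𝓗 := fun k l => FF k l • R k (S l y) with hψ
  set u : ZMod p → ZMod p → 𝓗 := fun d k => ContinuousLinearMap.adjoint (R (k + d)) (R k y) with hu
  set v : ZMod p → ZMod p → 𝓗 := fun d l => ContinuousLinearMap.adjoint (S l) (S (l + d) y) with hv
  set D : ZMod p → ℂ := fun d => ∑ l : ZMod p, ∑ k : ZMod p, inner ℂ (ψ k l) (ψ (k + d) (l + d))
    with hD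
  -- the expansion
  have h1 : ((∑ x : ZMod p, ‖∑ l : ZMod p, ψ (x + l) l‖ ^ 2 : ℝ) : ℂ) = ∑ d : ZMod p, D d := by
    rw [ofReal_sum]
    have e1 : ∀ x : ZMod p, ((‖∑ l : ZMod p, ψ (x + l) l‖ ^ 2 : ℝ) : ℂ)
        = ∑ l : ZMod p, ∑ d : ZMod p, inner ℂ (ψ (x + l) l) (ψ (x + l + d) (l + d)) := by
      intro x
      rw [nsq, sum_inner]
      refine sum_congr rfl fun l _ => ?_
      rw [inner_sum, ← Equiv.sum_comp (Equiv.addLeft l)]
      refine sum_congr rfl fun d _ => ?_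
      rw [Equiv.coe_addLeft, add_assoc]
    rw [sum_congr rfl fun x _ => e1 x]
    rw [sum_comm]
    have e2 : ∀ l : ZMod p,
        ∑ x : ZMod p, ∑ d : ZMod p, inner ℂ (ψ (x + l) l) (ψ (x + l + d) (l + d))
        = ∑ d : ZMod p, ∑ k : ZMod p, inner ℂ (ψ k l) (ψ (k + d) (l + d)) := by
      intro l
      rw [sum_comm]
      refine sum_congr rfl fun d _ => ?_
      exact Equiv.sum_comp (Equiv.addRight l)
        (fun k => inner ℂ (ψ k l) (ψ (k + d) (l + d)))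
    rw [sum_congr rfl fun l _ => e2 l, sum_comm]
  -- the terms
  have h2 : ∀ d k l : ZMod p, inner ℂ (ψ k l) (ψ (k + d) (l + d))
      = ee (6 * d * k * l) * inner ℂ (ee (-(3 * d * d * k)) • u d k)
        (ee (3 * d * d * l + 2 * d * d * d) • v d l) := by
    intro d k l
    rw [inner_smul_left, inner_smul_right, inner_smul_left, inner_smul_right, ← ee_neg, neg_neg,
      ← mul_assoc, FF_shift]
    have e3 : inner ℂ (R k (S l y)) (R (k + d) (S (l + d) y)) = inner ℂ (u d k) (v d l) := by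
      rw [← ContinuousLinearMap.adjoint_inner_left, hRS, hRS', ← ContinuousLinearMap.adjoint_inner_right]
    rw [e3]
    ring
  have hD0 : ‖D 0‖ ≤ α * β * ‖y‖ ^ 2 := by
    have e4 : D 0 = ((∑ l : ZMod p, ∑ k : ZMod p, ‖R k (S l y)‖ ^ 2 : ℝ) : ℂ) := by
      rw [ofReal_sum]
      refine sum_congr rfl fun l _ => ?_
      rw [ofReal_sum]
      refine sum_congr rfl fun k _ => ?_
      rw [add_zero, add_zero, ← nsq, norm_smul, FF_norm, one_mul]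
    rw [e4, norm_real, Real.norm_of_nonneg (by positivity)]
    calc ∑ l : ZMod p, ∑ k : ZMod p, ‖R k (S l y)‖ ^ 2 ≤ ∑ l : ZMod p, α * ‖S l y‖ ^ 2 :=
          sum_le_sum fun l _ => hR _
      _ ≤ α * (β * ‖y‖ ^ 2) := by
          rw [← mul_sum]
          exact mul_le_mul_of_nonneg_left (hS _) hα
      _ = _ := by ring
  have hDd : ∀ d : ZMod p, d ≠ 0 → ‖D d‖
      ≤ Real.sqrt p * (Real.sqrt (∑ k, ‖u d k‖ ^ 2) * Real.sqrt (∑ l, ‖v d l‖ ^ 2)) := by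
    intro d hd
    have e5 : D d = ∑ k : ZMod p, ∑ l : ZMod p, ee (6 * d * k * l)
        * inner ℂ (ee (-(3 * d * d * k)) • u d k)
        (ee (3 * d * d * l + 2 * d * d * d) • v d l) := by
      exact sum_comm.trans (sum_congr rfl fun k _ => sum_congr rfl fun l _ => h2 d k l)
    rw [e5]
    refine (bilin (6 * d) (mul_ne_zero h6 hd) _ _).trans (le_of_eq ?_)
    simp only [norm_ee_smul]
  -- sums of squares
  have hU : ∑ d : ZMod p, ∑ k, ‖u d k‖ ^ 2 ≤ α ^ 2 * ‖y‖ ^ 2 := by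
    calc ∑ d : ZMod p, ∑ k, ‖u d k‖ ^ 2 = ∑ k : ZMod p, ∑ k' : ZMod p, ‖ContinuousLinearMap.adjoint (R k') (R k y)‖ ^ 2 := by
          rw [sum_comm]
          refine sum_congr rfl fun k _ => ?_
          exact Equiv.sum_comp (Equiv.addLeft k) (fun k' => ‖ContinuousLinearMap.adjoint (R k') (R k y)‖ ^ 2)
      _ ≤ ∑ k : ZMod p, α * ‖R k y‖ ^ 2 := sum_le_sum fun k _ => hR' _
      _ ≤ α * (α * ‖y‖ ^ 2) := by
          rw [← mul_sum]
          exact mul_le_mul_of_nonneg_left (hR _) hα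
      _ = _ := by ring
  have hV : ∑ d : ZMod p, ∑ k, ‖v d k‖ ^ 2 ≤ β ^ 2 * ‖y‖ ^ 2 := by
    calc ∑ d : ZMod p, ∑ l, ‖v d l‖ ^ 2 = ∑ d : ZMod p, ∑ l, ‖ContinuousLinearMap.adjoint (S (l - d)) (S l y)‖ ^ 2 := by
          refine sum_congr rfl fun d _ => ?_
          rw [← Equiv.sum_comp (Equiv.addRight d) (fun l => ‖ContinuousLinearMap.adjoint (S (l - d)) (S l y)‖ ^ 2)]
          refine sum_congr rfl fun l _ => ?_
          rw [Equiv.coe_addRight, add_sub_cancel_right]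
      _ = ∑ k : ZMod p, ∑ k' : ZMod p, ‖ContinuousLinearMap.adjoint (S k') (S k y)‖ ^ 2 := by
          rw [sum_comm]
          refine sum_congr rfl fun k _ => ?_
          exact Equiv.sum_comp (Equiv.subLeft k) (fun k' => ‖ContinuousLinearMap.adjoint (S k') (S k y)‖ ^ 2)
      _ ≤ ∑ k : ZMod p, β * ‖S k y‖ ^ 2 := sum_le_sum fun k _ => hS' _
      _ ≤ β * (β * ‖y‖ ^ 2) := by
          rw [← mul_sum]
          exact mul_le_mul_of_nonneg_left (hS _) hβ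
      _ = _ := by ring
  have hUV : ∑ d : ZMod p, Real.sqrt (∑ k, ‖u d k‖ ^ 2) * Real.sqrt (∑ l, ‖v d l‖ ^ 2)
      ≤ (α * β) * ‖y‖ ^ 2 := by
    refine (Real.sum_sqrt_mul_sqrt_le _ (fun d => by positivity) (fun d => by positivity)).trans ?_
    have e6 : Real.sqrt (∑ d : ZMod p, ∑ k, ‖u d k‖ ^ 2) ≤ α * ‖y‖ := by
      refine Real.sqrt_le_iff.2 ⟨by positivity, hU.trans (le_of_eq (by ring))⟩
    have e7 : Real.sqrt (∑ d : ZMod p, ∑ k, ‖v d k‖ ^ 2) ≤ β * ‖y‖ := by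
      refine Real.sqrt_le_iff.2 ⟨by positivity, hV.trans (le_of_eq (by ring))⟩
    calc _ ≤ (α * ‖y‖) * (β * ‖y‖) := mul_le_mul e6 e7 (Real.sqrt_nonneg _) (by positivity)
      _ = _ := by ring
  have h3 : ∑ x : ZMod p, ‖∑ l : ZMod p, ψ (x + l) l‖ ^ 2 ≤ ∑ d : ZMod p, ‖D d‖ := by
    have h4 : ‖((∑ x : ZMod p, ‖∑ l : ZMod p, ψ (x + l) l‖ ^ 2 : ℝ) : ℂ)‖
        ≤ ∑ d : ZMod p, ‖D d‖ := by
      rw [h1]
      exact norm_sum_le _ _
    rwa [norm_real, Real.norm_of_nonneg (by positivity)] at h4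
  refine h3.trans ?_
  rw [← add_sum_erase univ (fun d => ‖D d‖) (mem_univ (0 : ZMod p))]
  have h5 : ∑ d ∈ univ.erase (0 : ZMod p), ‖D d‖ ≤ Real.sqrt p * ((α * β) * ‖y‖ ^ 2) := by
    calc ∑ d ∈ univ.erase (0 : ZMod p), ‖D d‖
        ≤ ∑ d ∈ univ.erase (0 : ZMod p), Real.sqrt p *
            (Real.sqrt (∑ k, ‖u d k‖ ^ 2) * Real.sqrt (∑ l, ‖v d l‖ ^ 2)) :=
          sum_le_sum fun d hd => hDd d (ne_of_mem_erase hd)
      _ ≤ ∑ d : ZMod p, Real.sqrt p *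
            (Real.sqrt (∑ k, ‖u d k‖ ^ 2) * Real.sqrt (∑ l, ‖v d l‖ ^ 2)) :=
          sum_le_sum_of_subset_of_nonneg (erase_subset _ _) (fun d _ _ => by positivity)
      _ ≤ _ := by
          rw [← mul_sum]
          exact mul_le_mul_of_nonneg_left hUV (Real.sqrt_nonneg _)
  calc ‖D 0‖ + ∑ d ∈ univ.erase (0 : ZMod p), ‖D d‖
      ≤ α * β * ‖y‖ ^ 2 + Real.sqrt p * ((α * β) * ‖y‖ ^ 2) := add_le_add hD0 h5
    _ = _ := by ring

end Pool.Agent.W2helper17.BL
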