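import Pool.Agent.W2helper17.BL.Coef

/-! The lower bound. -/

set_option autoImplicit false

namespace Pool.Agent.W2helper17.BL

open Finset Complex
open scoped ComplexConjugate CStarMatrix BoundedContinuousFunction

section pointwise

variable {p : ℕ} [NeZero p]
variable {E : Type*} [NormedAddCommGroup E] [InnerProductSpace ℂ E]

lemma quad' [Fact p.Prime] (c : ZMod p) (hc : c ≠ 0) (u : ZMod p → E) :
    ∑ l : ZMod p, ‖∑ x : ZMod p, ee (c * x * (l * l)) • u x‖ ^ 2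
      ≤ 2 * p * ∑ x : ZMod p, ‖u x‖ ^ 2 := by
  have h := quad (fun x => u (c⁻¹ * x))
  have e1 : ∀ l : ZMod p, ∑ x : ZMod p, ee (x * (l * l)) • u (c⁻¹ * x)
      = ∑ x : ZMod p, ee (c * x * (l * l)) • u x := by
    intro l
    rw [← Equiv.sum_comp (Equiv.mulLeft₀ c hc)]
    refine sum_congr rfl fun x _ => ?_
    change ee (c * x * (l * l)) • u (c⁻¹ * (c * x)) = _
    rw [inv_mul_cancel_left₀ hc]
  have e2 : ∑ x : ZMod p, ‖u (c⁻¹ * x)‖ ^ 2 = ∑ x : ZMod p, ‖u x‖ ^ 2 :=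
    Equiv.sum_comp (Equiv.mulLeft₀ c⁻¹ (inv_ne_zero hc)) (fun x => ‖u x‖ ^ 2)
  rw [e2] at h
  refine le_trans (le_of_eq ?_) h
  exact sum_congr rfl fun l _ => by rw [e1]

lemma pw1 [Fact p.Prime] (h3 : (3 : ZMod p) ≠ 0) (x' : ZMod p) (z : ZMod p → ℂ) :
    ∑ l : ZMod p, ‖∑ x : ZMod p, z x * (conj (FF (x + l) l) * ee (x' * (x + l)))‖ ^ 2
      ≤ 2 * p * ∑ x : ZMod p, ‖z x‖ ^ 2 := by
  have h := quad' (-3) (neg_ne_zero.2 h3) (fun x => ee (x' * x) * z x)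
  have e2 : ∑ x : ZMod p, ‖ee (x' * x) * z x‖ ^ 2 = ∑ x : ZMod p, ‖z x‖ ^ 2 :=
    sum_congr rfl fun x _ => by rw [norm_mul, ee_norm, one_mul]
  rw [e2] at h
  refine le_trans (le_of_eq ?_) h
  refine sum_congr rfl fun l _ => ?_
  have e3 : ∑ x : ZMod p, z x * (conj (FF (x + l) l) * ee (x' * (x + l)))
      = ee (x' * l - 2 * l * l * l) * ∑ x : ZMod p, ee (-3 * x * (l * l)) • (ee (x' * x) * z x) := by
    rw [mul_sum]
    refine sum_congr rfl fun x _ => ?_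
    unfold FF
    rw [← ee_neg, smul_eq_mul, ← ee_add]
    have : ee (x' * l - 2 * l * l * l) * (ee (-3 * x * (l * l)) * (ee (x' * x) * z x))
        = z x * (ee (x' * l - 2 * l * l * l + (-3 * x * (l * l) + x' * x))) := by
      rw [ee_add, ee_add (-3 * x * (l * l))]
      ring
    rw [this]
    congr 2
    ring
  rw [e3, norm_mul, ee_norm, one_mul]

lemma pw2 [Fact p.Prime] (h3 : (3 : ZMod p) ≠ 0) (x' : ZMod p) (z : ZMod p → ℂ) :
    ∑ k : ZMod p, ‖∑ x : ZMod p, z x * (conj (FF k (k - x)) * ee (x' * (k - x)))‖ ^ 2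
      ≤ 2 * p * ∑ x : ZMod p, ‖z x‖ ^ 2 := by
  have h := quad' 3 h3 (fun x => ee (-(x * x * x) - x' * x) * z x)
  have e2 : ∑ x : ZMod p, ‖ee (-(x * x * x) - x' * x) * z x‖ ^ 2 = ∑ x : ZMod p, ‖z x‖ ^ 2 :=
    sum_congr rfl fun x _ => by rw [norm_mul, ee_norm, one_mul]
  rw [e2] at h
  refine le_trans (le_of_eq ?_) h
  refine sum_congr rfl fun l _ => ?_
  have e3 : ∑ x : ZMod p, z x * (conj (FF l (l - x)) * ee (x' * (l - x)))
      = ee (x' * l - 2 * l * l * l) * ∑ x : ZMod p,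
        ee (3 * x * (l * l)) • (ee (-(x * x * x) - x' * x) * z x) := by
    rw [mul_sum]
    refine sum_congr rfl fun x _ => ?_
    unfold FF
    rw [← ee_neg, smul_eq_mul, ← ee_add]
    have : ee (x' * l - 2 * l * l * l) * (ee (3 * x * (l * l)) * (ee (-(x * x * x) - x' * x) * z x))
        = z x * (ee (x' * l - 2 * l * l * l + (3 * x * (l * l) + (-(x * x * x) - x' * x)))) := by
      rw [ee_add, ee_add (3 * x * (l * l))]
      ring
    rw [this]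
    congr 2
    ring
  rw [e3, norm_mul, ee_norm, one_mul]

lemma pwc (x' : ZMod p) (z : ZMod p → ℂ) :
    ‖∑ x : ZMod p, z x * ee (x' * x)‖ ^ 2 ≤ p * ∑ x : ZMod p, ‖z x‖ ^ 2 := by
  have h : ‖∑ x : ZMod p, z x * ee (x' * x)‖ ≤ ∑ x : ZMod p, ‖z x‖ := by
    refine (norm_sum_le _ _).trans (le_of_eq (sum_congr rfl fun x _ => ?_))
    rw [norm_mul, ee_norm, mul_one]
  calc ‖∑ x : ZMod p, z x * ee (x' * x)‖ ^ 2 ≤ (∑ x : ZMod p, ‖z x‖) ^ 2 :=
        pow_le_pow_left₀ (norm_nonneg _) h 2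
    _ ≤ (univ : Finset (ZMod p)).card * ∑ x : ZMod p, ‖z x‖ ^ 2 := sq_sum_le_card_mul_sum_sq
    _ = _ := by rw [card_univ, ZMod.card]

end pointwise

section col

variable {Ω : Type} [TopologicalSpace Ω] [PartialOrder (Ω →ᵇ ℂ)] [StarOrderedRing (Ω →ᵇ ℂ)]
variable {H : Type} [NormedAddCommGroup H] [InnerProductSpace ℂ H]
variable {p : ℕ} [NeZero p]

/-- the test with a matrix and a column -/
lemma col (φ : (Ω →ᵇ ℂ) →ₗ[ℂ] (Ω →ᵇ ℂ) →ₗ[ℂ] (H →L[ℂ] H)) (C : ℝ)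
    (hφ : ∀ (n : ℕ) (a : CStarMatrix (Fin n) (Fin n) (Ω →ᵇ ℂ))
            (b : CStarMatrix (Fin n) (Fin n) (Ω →ᵇ ℂ)) (x : Fin n → H),
            ∑ i : Fin n, ‖∑ j : Fin n, ∑ k : Fin n, φ (a i k) (b k j) (x j)‖ ^ 2
              ≤ (C * ‖a‖ * ‖b‖) ^ 2 * ∑ j : Fin n, ‖x j‖ ^ 2)
    (a : ZMod p → ZMod p → (Ω →ᵇ ℂ)) (b : ZMod p → (Ω →ᵇ ℂ)) (Ka Kb : ℝ) (hKa : 0 ≤ Ka)
    (hKb : 0 ≤ Kb)
    (ha : ∀ (ω : Ω) (z : ZMod p → ℂ), ∑ j, ‖∑ i, z i * a i j ω‖ ^ 2 ≤ Ka ^ 2 * ∑ i, ‖z i‖ ^ 2)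
    (hb : ∀ (ω : Ω) (z : ZMod p → ℂ), ‖∑ i, z i * b i ω‖ ^ 2 ≤ Kb ^ 2 * ∑ i, ‖z i‖ ^ 2) (e0 : H) :
    ∑ i : ZMod p, ‖∑ k : ZMod p, φ (a i k) (b k) e0‖ ^ 2 ≤ (|C| * Ka * Kb) ^ 2 * ‖e0‖ ^ 2 := by
  classical
  set e : Fin p ≃ ZMod p := (ZMod.finEquiv p).toEquiv with he
  set a' : CStarMatrix (Fin p) (Fin p) (Ω →ᵇ ℂ) := fun i k => a (e i) (e k) with ha'
  set b' : CStarMatrix (Fin p) (Fin p) (Ω →ᵇ ℂ) := fun k j => if j = 0 then b (e k) else 0 with hb'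
  have na : ‖a'‖ ≤ Ka := by
    refine norm_le_of _ _ hKa fun ω z => ?_
    have h := ha ω (fun i => z (e.symm i))
    rw [← Equiv.sum_comp e (fun i => ‖z (e.symm i)‖ ^ 2), ← Equiv.sum_comp e] at h
    simp only [Equiv.symm_apply_apply] at h
    refine le_trans (le_of_eq ?_) h
    refine sum_congr rfl fun j _ => ?_
    rw [← Equiv.sum_comp e (fun i => z (e.symm i) * a i (e j) ω)]
    simp only [Equiv.symm_apply_apply]
    rfl
  have nb : ‖b'‖ ≤ Kb := by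
    refine norm_le_of _ _ hKb fun ω z => ?_
    have h := hb ω (fun i => z (e.symm i))
    rw [← Equiv.sum_comp e (fun i => ‖z (e.symm i)‖ ^ 2)] at h
    simp only [Equiv.symm_apply_apply] at h
    refine le_trans (le_of_eq ?_) h
    rw [sum_eq_single (0 : Fin p)]
    · rw [← Equiv.sum_comp e (fun i => z (e.symm i) * b i ω)]
      simp only [Equiv.symm_apply_apply]
      rfl
    · intro j _ hj
      have : ∀ i : Fin p, z i * b' i j ω = 0 := by
        intro i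
        have : b' i j = 0 := if_neg hj
        rw [this]
        simp
      rw [sum_congr rfl fun i _ => this i]
      simp
    · intro h0
      exact absurd (mem_univ _) h0
  have h := hφ p a' b' (fun j => if j = 0 then e0 else 0)
  have e1 : ∑ j : Fin p, ‖(if j = 0 then e0 else 0 : H)‖ ^ 2 = ‖e0‖ ^ 2 := by
    rw [sum_eq_single (0 : Fin p)]
    · simp
    · intro j _ hj
      simp [hj]
    · intro h0
      exact absurd (mem_univ _) h0
  rw [e1] at h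
  have e2 : ∑ i : Fin p, ‖∑ j : Fin p, ∑ k : Fin p, φ (a' i k) (b' k j) (if j = 0 then e0 else 0)‖ ^ 2
      = ∑ i : ZMod p, ‖∑ k : ZMod p, φ (a i k) (b k) e0‖ ^ 2 := by
    rw [← Equiv.sum_comp e]
    refine sum_congr rfl fun i _ => ?_
    rw [sum_eq_single (0 : Fin p)]
    · rw [← Equiv.sum_comp e (fun k => φ (a (e i) k) (b k) e0)]
      simp only [if_true]
      rfl
    · intro j _ hj
      simp [hj]
    · intro h0
      exact absurd (mem_univ _) h0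
  rw [e2] at h
  refine h.trans (mul_le_mul_of_nonneg_right ?_ (by positivity))
  refine sq_le_sq' ?_ ?_
  · have h1 : |C| * ‖a'‖ * ‖b'‖ ≤ |C| * Ka * Kb := by gcongr
    have h2 : -(|C| * ‖a'‖ * ‖b'‖) ≤ C * ‖a'‖ * ‖b'‖ := by
      have := neg_abs_le C
      have h3 : 0 ≤ ‖a'‖ * ‖b'‖ := by positivity
      nlinarith
    linarith
  · have h1 : |C| * ‖a'‖ * ‖b'‖ ≤ |C| * Ka * Kb := by gcongr
    have h2 : C * ‖a'‖ * ‖b'‖ ≤ |C| * ‖a'‖ * ‖b'‖ := by
      gcongr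
      exact le_abs_self C
    linarith

/-- the estimate of the pairing -/
lemma pair (v : ZMod p → H) (ε : ZMod p → H) (hε : ∀ x, ‖ε x‖ = 1) (K : ℝ) (hK : 0 ≤ K)
    (hv : ∑ x, ‖v x‖ ^ 2 ≤ K ^ 2) :
    ‖∑ x : ZMod p, inner ℂ (ε x) (v x)‖ ≤ Real.sqrt p * K := by
  calc ‖∑ x : ZMod p, inner ℂ (ε x) (v x)‖ ≤ ∑ x : ZMod p, 1 * ‖v x‖ := by
        refine (norm_sum_le _ _).trans (sum_le_sum fun x _ => ?_)
        rw [← hε x]
        exact norm_inner_le_norm _ _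
    _ ≤ Real.sqrt (∑ _x : ZMod p, (1 : ℝ) ^ 2) * Real.sqrt (∑ x, ‖v x‖ ^ 2) :=
        Real.sum_mul_le_sqrt_mul_sqrt _ _ _
    _ ≤ Real.sqrt p * K := by
        refine mul_le_mul ?_ ?_ (Real.sqrt_nonneg _) (Real.sqrt_nonneg _)
        · rw [sum_const, card_univ, ZMod.card]
          simp
        · exact Real.sqrt_le_iff.2 ⟨hK, hv⟩

lemma lower [Fact p.Prime] (h3 : (3 : ZMod p) ≠ 0)
    (φ₁ φ₂ : (Ω →ᵇ ℂ) →ₗ[ℂ] (Ω →ᵇ ℂ) →ₗ[ℂ] (H →L[ℂ] H)) (C₁ C₂ : ℝ)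
    (h₁ : ∀ (n : ℕ) (a : CStarMatrix (Fin n) (Fin n) (Ω →ᵇ ℂ))
            (b : CStarMatrix (Fin n) (Fin n) (Ω →ᵇ ℂ)) (x : Fin n → H),
            ∑ i : Fin n, ‖∑ j : Fin n, ∑ k : Fin n, φ₁ (a i k) (b k j) (x j)‖ ^ 2
              ≤ (C₁ * ‖a‖ * ‖b‖) ^ 2 * ∑ j : Fin n, ‖x j‖ ^ 2)
    (h₂ : ∀ (n : ℕ) (a : CStarMatrix (Fin n) (Fin n) (Ω →ᵇ ℂ))
            (b : CStarMatrix (Fin n) (Fin n) (Ω →ᵇ ℂ)) (x : Fin n → H),
            ∑ i : Fin n, ‖∑ j : Fin n, ∑ k : Fin n, φ₂ (a i k) (b k j) (x j)‖ ^ 2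
              ≤ (C₂ * ‖a‖ * ‖b‖) ^ 2 * ∑ j : Fin n, ‖x j‖ ^ 2)
    (pt : ZMod p → Ω) (g : ZMod p → (Ω →ᵇ ℂ)) (hg1 : ∀ x k, g k (pt x) = ee (x * k))
    (hg0 : ∀ ω, (∃ x, ω = pt x) ∨ ∀ k, g k ω = 0)
    (ε : ZMod p → H) (hε : ∀ x, ‖ε x‖ = 1) (e0 : H) (he0 : ‖e0‖ = 1) (w : ℝ)
    (hw : ∀ k l : ZMod p, φ₁ (g k) (g l) e0 + φ₂ (g l) (g k) e0
      = ((w : ℂ) * FF k l) • ε (k - l)) :
    w * Real.sqrt p ≤ Real.sqrt 2 * (|C₁| + |C₂|) := by
  have hp : (0 : ℝ) < p := by exact_mod_cast Nat.pos_of_ne_zero (NeZero.ne p)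
  have hsp : Real.sqrt p ^ 2 = p := Real.sq_sqrt hp.le
  have hs2 : Real.sqrt 2 ^ 2 = 2 := Real.sq_sqrt (by norm_num)
  have hKb : ∀ (ω : Ω) (z : ZMod p → ℂ), ‖∑ i, z i * g i ω‖ ^ 2
      ≤ (Real.sqrt p) ^ 2 * ∑ i, ‖z i‖ ^ 2 := by
    intro ω z
    rw [hsp]
    rcases hg0 ω with ⟨x, rfl⟩ | h0
    · have h := pwc x z
      simpa only [hg1] using h
    · have e : ∑ i, z i * g i ω = 0 := sum_eq_zero fun i _ => by rw [h0, mul_zero]
      rw [e, norm_zero, zero_pow two_ne_zero]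
      positivity
  -- first part
  set v : ZMod p → H := fun x => ∑ l : ZMod p, φ₁ (conj (FF (x + l) l) • g (x + l)) (g l) e0 with hv
  have hv2 : ∑ x, ‖v x‖ ^ 2 ≤ (|C₁| * (Real.sqrt 2 * Real.sqrt p) * Real.sqrt p) ^ 2 := by
    have h := col φ₁ C₁ h₁ (fun x l => conj (FF (x + l) l) • g (x + l)) g
      (Real.sqrt 2 * Real.sqrt p) (Real.sqrt p) (by positivity) (by positivity) ?_ hKb e0
    · rw [he0, one_pow, mul_one] at h
      exact h
    · intro ω z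
      rw [mul_pow, hsp, hs2]
      rcases hg0 ω with ⟨x, rfl⟩ | h0
      · have h := pw1 h3 x z
        refine le_trans (le_of_eq ?_) h
        refine sum_congr rfl fun l _ => ?_
        congr 2
        refine sum_congr rfl fun i _ => ?_
        rw [BoundedContinuousFunction.coe_smul]
        dsimp only
        rw [hg1, smul_eq_mul]
      · refine le_trans (le_of_eq ?_) (by positivity : (0 : ℝ) ≤ 2 * p * ∑ i, ‖z i‖ ^ 2)
        refine sum_eq_zero fun l _ => ?_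
        rw [sum_eq_zero, norm_zero, zero_pow two_ne_zero]
        intro i _
        rw [BoundedContinuousFunction.coe_smul]
        dsimp only
        rw [h0, smul_zero, mul_zero]
  -- second part
  set v' : ZMod p → H := fun x => ∑ k : ZMod p, φ₂ (conj (FF k (k - x)) • g (k - x)) (g k) e0 with hv'
  have hv2' : ∑ x, ‖v' x‖ ^ 2 ≤ (|C₂| * (Real.sqrt 2 * Real.sqrt p) * Real.sqrt p) ^ 2 := by
    have h := col φ₂ C₂ h₂ (fun x k => conj (FF k (k - x)) • g (k - x)) g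
      (Real.sqrt 2 * Real.sqrt p) (Real.sqrt p) (by positivity) (by positivity) ?_ hKb e0
    · rw [he0, one_pow, mul_one] at h
      exact h
    · intro ω z
      rw [mul_pow, hsp, hs2]
      rcases hg0 ω with ⟨x, rfl⟩ | h0
      · have h := pw2 h3 x z
        refine le_trans (le_of_eq ?_) h
        refine sum_congr rfl fun l _ => ?_
        congr 2
        refine sum_congr rfl fun i _ => ?_
        rw [BoundedContinuousFunction.coe_smul]
        dsimp only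
        rw [hg1, smul_eq_mul]
      · refine le_trans (le_of_eq ?_) (by positivity : (0 : ℝ) ≤ 2 * p * ∑ i, ‖z i‖ ^ 2)
        refine sum_eq_zero fun l _ => ?_
        rw [sum_eq_zero, norm_zero, zero_pow two_ne_zero]
        intro i _
        rw [BoundedContinuousFunction.coe_smul]
        dsimp only
        rw [h0, smul_zero, mul_zero]
  -- the sum
  have hsum : ∀ x : ZMod p, inner ℂ (ε x) (v x) + inner ℂ (ε x) (v' x) = (w : ℂ) * p := by
    intro x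
    have e1 : v' x = ∑ l : ZMod p, φ₂ (conj (FF (x + l) l) • g l) (g (x + l)) e0 := by
      rw [hv']
      dsimp only
      rw [← Equiv.sum_comp (Equiv.addLeft x)]
      refine sum_congr rfl fun l _ => ?_
      rw [Equiv.coe_addLeft, add_sub_cancel_left]
    have e2 : v x + v' x = ∑ l : ZMod p, (w : ℂ) • ε x := by
      rw [e1, hv, ← sum_add_distrib]
      refine sum_congr rfl fun l _ => ?_
      rw [map_smul, map_smul, LinearMap.smul_apply, LinearMap.smul_apply, _root_.smul_apply,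
        _root_.smul_apply, ← smul_add, hw, add_sub_cancel_right, smul_smul]
      congr 1
      have : conj (FF (x + l) l) * ((w : ℂ) * FF (x + l) l)
          = (w : ℂ) * (conj (FF (x + l) l) * FF (x + l) l) := by ring
      rw [this]
      unfold FF
      rw [ee_conj_mul, mul_one]
    rw [← inner_add_right, e2, sum_const, card_univ, ZMod.card, inner_smul_right_eq_smul,
      inner_smul_right, ← nsq, hε]
    simp [mul_comm]
  have htot : ∑ x : ZMod p, inner ℂ (ε x) (v x) + ∑ x : ZMod p, inner ℂ (ε x) (v' x)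
      = ((w * p ^ 2 : ℝ) : ℂ) := by
    rw [← sum_add_distrib, sum_congr rfl fun x _ => hsum x, sum_const, card_univ, ZMod.card]
    push_cast
    rw [nsmul_eq_mul]
    ring
  have b1 := pair v ε hε _ (by positivity) hv2
  have b2 := pair v' ε hε _ (by positivity) hv2'
  have b3 : w * p ^ 2 ≤ Real.sqrt p * (|C₁| * (Real.sqrt 2 * Real.sqrt p) * Real.sqrt p)
      + Real.sqrt p * (|C₂| * (Real.sqrt 2 * Real.sqrt p) * Real.sqrt p) := by
    calc w * p ^ 2 ≤ ‖((w * p ^ 2 : ℝ) : ℂ)‖ := by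
          rw [norm_real]
          exact le_abs_self _
      _ ≤ _ := by
          rw [← htot]
          exact (norm_add_le _ _).trans (add_le_add b1 b2)
  have hs0 : 0 < Real.sqrt p := Real.sqrt_pos.2 hp
  have b4 : Real.sqrt p ^ 3 * (w * Real.sqrt p)
      ≤ Real.sqrt p ^ 3 * (Real.sqrt 2 * (|C₁| + |C₂|)) := by
    calc Real.sqrt p ^ 3 * (w * Real.sqrt p) = w * (Real.sqrt p ^ 2) ^ 2 := by ring
      _ = w * p ^ 2 := by rw [hsp]
      _ ≤ _ := b3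
      _ = _ := by ring
  exact le_of_mul_le_mul_left b4 (by positivity)

end col

end Pool.Agent.W2helper17.BL
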